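import Mathlib

/-!
# The second term in the count of the pairs `|a ^ n - b ^ m| ≤ x` (helper32)
-/

set_option autoImplicit false

namespace Pool.Agent.H32x.ST

open Real Filter Set

/-- the pairs -/
def prs (A B L : ℝ) : Set (ℕ × ℕ) := {p | |exp (p.1 * A) - exp (p.2 * B)| ≤ exp L}

/-- the box -/
def box (A B T : ℝ) : Set (ℕ × ℕ) := {p | p.1 * A ≤ T ∧ p.2 * B ≤ T}

lemma close_aux {u v L ε : ℝ} (hε : 0 < ε) (h : exp u - exp v ≤ exp L) (hu : L + ε < u) :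
    u - v ≤ (1 - exp (-ε))⁻¹ * exp (L - u) := by
  have e1 : exp (-ε) < 1 := by rw [Real.exp_lt_one_iff]; linarith
  have e2 : exp (L - u) < exp (-ε) := Real.exp_lt_exp.2 (by linarith)
  have e3 : 0 < exp (L - u) := exp_pos _
  have e4 : 1 - exp (L - u) ≤ exp (v - u) := by
    rw [Real.exp_sub, Real.exp_sub, sub_le_iff_le_add, ← add_div, le_div_iff₀ (exp_pos u)]
    linarith
  have e5 : 0 < 1 - exp (L - u) := by linarith
  have e6 : Real.log (1 - exp (L - u)) ≤ v - u := by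
    rw [Real.log_le_iff_le_exp e5]
    exact e4
  have e7 : 1 - (1 - exp (L - u))⁻¹ ≤ Real.log (1 - exp (L - u)) :=
    Real.one_sub_inv_le_log_of_pos e5
  have e8 : (1 - exp (L - u))⁻¹ - 1 = (1 - exp (L - u))⁻¹ * exp (L - u) := by
    field_simp
    ring
  have e9 : (1 - exp (L - u))⁻¹ ≤ (1 - exp (-ε))⁻¹ := inv_anti₀ (by linarith) (by linarith)
  have e10 : (1 - exp (L - u))⁻¹ * exp (L - u) ≤ (1 - exp (-ε))⁻¹ * exp (L - u) :=
    mul_le_mul_of_nonneg_right e9 e3.le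
  linarith

lemma close {u v L ε : ℝ} (hε : 0 < ε) (h : |exp u - exp v| ≤ exp L)
    (hm : L + ε < u ∨ L + ε < v) :
    |u - v| ≤ (1 - exp (-ε))⁻¹ * exp (L - u) ∧ |u - v| ≤ (1 - exp (-ε))⁻¹ := by
  have e1 : exp (-ε) < 1 := by rw [Real.exp_lt_one_iff]; linarith
  have e0 : 0 < (1 - exp (-ε))⁻¹ := inv_pos.2 (by linarith)
  have h1 := abs_le.1 h
  rcases le_total v u with hvu | hvu
  · have hu : L + ε < u := by
      rcases hm with hm | hm
      · exact hm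
      · linarith
    have h2 := close_aux hε h1.2 hu
    have h3 : exp (L - u) ≤ 1 := by rw [Real.exp_le_one_iff]; linarith
    rw [abs_of_nonneg (by linarith)]
    exact ⟨h2, h2.trans (mul_le_of_le_one_right e0.le h3)⟩
  · have hv : L + ε < v := by
      rcases hm with hm | hm
      · linarith
      · exact hm
    have h2 := close_aux hε (by linarith [h1.1] : exp v - exp u ≤ exp L) hv
    have h3 : exp (L - v) ≤ 1 := by rw [Real.exp_le_one_iff]; linarith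
    have h4 : exp (L - v) ≤ exp (L - u) := Real.exp_le_exp.2 (by linarith)
    rw [abs_of_nonpos (by linarith), neg_sub]
    exact ⟨h2.trans (mul_le_mul_of_nonneg_left h4 e0.le), h2.trans (mul_le_of_le_one_right e0.le h3)⟩

lemma box_eq {A B T : ℝ} (hA : 0 < A) (hB : 0 < B) (hT : 0 ≤ T) : box A B T =
    ((Finset.range (⌊T / A⌋₊ + 1) ×ˢ Finset.range (⌊T / B⌋₊ + 1) : Finset (ℕ × ℕ)) : Set (ℕ × ℕ)) := by
  ext ⟨n, m⟩
  simp only [box, mem_setOf_eq, Finset.coe_product, Set.mem_prod, Finset.mem_coe, Finset.mem_range,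
    Nat.lt_succ_iff]
  rw [Nat.le_floor_iff (by positivity), Nat.le_floor_iff (by positivity), le_div_iff₀ hA,
    le_div_iff₀ hB]

lemma box_ncard {A B T : ℝ} (hA : 0 < A) (hB : 0 < B) (hT : 0 ≤ T) :
    (box A B T).ncard = (⌊T / A⌋₊ + 1) * (⌊T / B⌋₊ + 1) := by
  rw [box_eq hA hB hT, Set.ncard_coe_finset, Finset.card_product, Finset.card_range,
    Finset.card_range]

lemma box_finite {A B T : ℝ} (hA : 0 < A) (hB : 0 < B) (hT : 0 ≤ T) : (box A B T).Finite := by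
  rw [box_eq hA hB hT]
  exact Finset.finite_toSet _

lemma box_sub (A B L : ℝ) : box A B L ⊆ prs A B L := by
  rintro ⟨n, m⟩ ⟨h1, h2⟩
  have e1 : exp ((n : ℝ) * A) ≤ exp L := Real.exp_le_exp.2 h1
  have e2 : exp ((m : ℝ) * B) ≤ exp L := Real.exp_le_exp.2 h2
  have e3 := exp_pos ((n : ℝ) * A)
  have e4 := exp_pos ((m : ℝ) * B)
  show |exp ((n : ℝ) * A) - exp ((m : ℝ) * B)| ≤ exp L
  rw [abs_le]
  constructor <;> linarith

/-- the pairs of the bounded part -/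
lemma near_card {A B : ℝ} (hA : 0 < A) (hB : 0 < B) (C S : ℝ) : ∃ K : ℕ, ∀ L : ℝ,
    ({p : ℕ × ℕ | |p.1 * A - p.2 * B| ≤ C ∧ L - C ≤ p.1 * A ∧ p.1 * A ≤ L + S}).Finite ∧
    ({p : ℕ × ℕ | |p.1 * A - p.2 * B| ≤ C ∧ L - C ≤ p.1 * A ∧ p.1 * A ≤ L + S}).ncard ≤ K := by
  obtain ⟨k, hk⟩ := exists_nat_gt ((|C| + |S|) / A + 2)
  obtain ⟨l, hl⟩ := exists_nat_gt (|C| / B + 2)
  refine ⟨(Finset.Icc (-(k : ℤ)) k ×ˢ Finset.Icc (-(l : ℤ)) l).card, fun L => ?_⟩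
  have hmaps : ∀ p ∈ {p : ℕ × ℕ | |p.1 * A - p.2 * B| ≤ C ∧ L - C ≤ p.1 * A ∧ p.1 * A ≤ L + S},
      (fun p : ℕ × ℕ => ((p.1 : ℤ) - ⌊L / A⌋, (p.2 : ℤ) - ⌊(p.1 : ℝ) * A / B⌋)) p ∈
      ((Finset.Icc (-(k : ℤ)) k ×ˢ Finset.Icc (-(l : ℤ)) l : Finset (ℤ × ℤ)) : Set (ℤ × ℤ)) := by
    rintro ⟨n, m⟩ ⟨h1, h2, h3⟩
    simp only at h1 h2 h3 ⊢
    rw [abs_le] at h1
    have f1 := Int.floor_le (L / A)
    have f2 := Int.lt_floor_add_one (L / A)
    have f3 := Int.floor_le ((n : ℝ) * A / B)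
    have f4 := Int.lt_floor_add_one ((n : ℝ) * A / B)
    have c1 := le_abs_self C
    have c2 := le_abs_self S
    have c3 := abs_nonneg C
    have c4 := abs_nonneg S
    have g1 : (n : ℝ) ≤ L / A + (|C| + |S|) / A := by
      rw [← add_div, le_div_iff₀ hA]; linarith
    have g2 : L / A - (|C| + |S|) / A ≤ n := by
      rw [← sub_div, div_le_iff₀ hA]; linarith
    have g3 : (m : ℝ) ≤ (n : ℝ) * A / B + |C| / B := by
      rw [← add_div, le_div_iff₀ hB]; linarith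
    have g4 : (n : ℝ) * A / B - |C| / B ≤ m := by
      rw [← sub_div, div_le_iff₀ hB]; linarith
    rw [Finset.coe_product, Set.mem_prod, Finset.mem_coe, Finset.mem_coe, Finset.mem_Icc,
      Finset.mem_Icc]
    simp only
    refine ⟨⟨?_, ?_⟩, ?_, ?_⟩
    · have : (-(k : ℝ)) ≤ (n : ℝ) - ⌊L / A⌋ := by linarith
      exact_mod_cast this
    · have : (n : ℝ) - ⌊L / A⌋ ≤ k := by linarith
      exact_mod_cast this
    · have : (-(l : ℝ)) ≤ (m : ℝ) - ⌊(n : ℝ) * A / B⌋ := by linarith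
      exact_mod_cast this
    · have : (m : ℝ) - ⌊(n : ℝ) * A / B⌋ ≤ l := by linarith
      exact_mod_cast this
  have hinj : InjOn (fun p : ℕ × ℕ => ((p.1 : ℤ) - ⌊L / A⌋, (p.2 : ℤ) - ⌊(p.1 : ℝ) * A / B⌋))
      {p : ℕ × ℕ | |p.1 * A - p.2 * B| ≤ C ∧ L - C ≤ p.1 * A ∧ p.1 * A ≤ L + S} := by
    rintro ⟨n, m⟩ _ ⟨n', m'⟩ _ h
    simp only [Prod.mk.injEq] at h
    obtain ⟨h1, h2⟩ := h
    have h3 : n = n' := by omega
    subst h3
    have h4 : m = m' := by omega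
    rw [h4]
  refine ⟨Set.Finite.of_injOn hmaps hinj (Finset.finite_toSet _), ?_⟩
  have := Set.ncard_le_ncard_of_injOn _ hmaps hinj (Finset.finite_toSet _)
  rwa [Set.ncard_coe_finset] at this

/-- no small combinations -/
lemma sep {A B : ℝ} (hB : 0 < B) (hirr : Irrational (A / B)) (G : ℕ) : ∃ δ : ℝ, 0 < δ ∧
    ∀ i : ℕ, 1 ≤ i → i < G → ∀ k : ℤ, δ ≤ |i * A - k * B| := by
  induction G with
  | zero => exact ⟨1, one_pos, fun i _ h => absurd h (by omega)⟩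
  | succ G ih =>
    obtain ⟨δ, h0, h⟩ := ih
    by_cases hG : G = 0
    · exact ⟨δ, h0, fun i h1 h2 => absurd h2 (by omega)⟩
    have hne : ∀ k : ℤ, (G : ℝ) * A - k * B ≠ 0 := by
      intro k hk
      apply hirr
      refine ⟨(k : ℚ) / G, ?_⟩
      have hG' : (G : ℝ) ≠ 0 := by exact_mod_cast hG
      push_cast
      rw [div_eq_div_iff hG' hB.ne']
      linarith
    refine ⟨min δ |(G : ℝ) * A - round ((G : ℝ) * A / B) * B|, lt_min h0 (abs_pos.2 (hne _)),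
      fun i h1 h2 k => ?_⟩
    rcases Nat.lt_succ_iff_lt_or_eq.1 h2 with h3 | h3
    · exact (min_le_left _ _).trans (h i h1 h3 k)
    · subst h3
      refine (min_le_right _ _).trans ?_
      have h4 := round_le ((i : ℝ) * A / B) k
      have h5 : ∀ z : ℝ, |(i : ℝ) * A - z * B| = |(i : ℝ) * A / B - z| * B := by
        intro z
        rw [← abs_of_pos hB, ← abs_mul, abs_of_pos hB, sub_mul, div_mul_cancel₀ _ hB.ne']
      rw [h5, h5]
      exact mul_le_mul_of_nonneg_right h4 hB.le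

/-- the pairs of the middle part -/
lemma mid_card {A B δ L : ℝ} {G : ℕ} (hA : 0 < A) (hB : 0 < B) (hG : 0 < G) (hL : 0 ≤ L)
    (hsep : ∀ i : ℕ, 1 ≤ i → i < G → ∀ k : ℤ, 2 * δ < |i * A - k * B|) (hδB : 2 * δ < B) :
    ({p : ℕ × ℕ | |p.1 * A - p.2 * B| ≤ δ ∧ p.1 * A ≤ 2 * L}).Finite ∧
    (({p : ℕ × ℕ | |p.1 * A - p.2 * B| ≤ δ ∧ p.1 * A ≤ 2 * L}).ncard : ℝ) ≤
      2 * L / (A * G) + 1 := by
  have hG' : (0 : ℝ) < G := by exact_mod_cast hG
  have hmaps : ∀ p ∈ {p : ℕ × ℕ | |p.1 * A - p.2 * B| ≤ δ ∧ p.1 * A ≤ 2 * L},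
      (fun p : ℕ × ℕ => p.1 / G) p ∈
        ((Finset.range (⌊2 * L / (A * G)⌋₊ + 1) : Finset ℕ) : Set ℕ) := by
    rintro ⟨n, m⟩ ⟨_, h2⟩
    simp only at h2 ⊢
    rw [Finset.mem_coe, Finset.mem_range, Nat.lt_succ_iff]
    apply Nat.le_floor
    have h3 : ((n / G : ℕ) : ℝ) ≤ (n : ℝ) / G := Nat.cast_div_le
    refine h3.trans ?_
    rw [div_le_div_iff₀ hG' (by positivity)]
    nlinarith
  have key : ∀ n m n' m' : ℕ, |(n : ℝ) * A - m * B| ≤ δ → |(n' : ℝ) * A - m' * B| ≤ δ →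
      n / G = n' / G → n ≤ n' → n = n' ∧ m = m' := by
    intro n m n' m' h1 h2 h3 h4
    have h5 : n' - n < G := by
      have e1 := Nat.div_add_mod n G
      have e2 := Nat.div_add_mod n' G
      have e3 := Nat.mod_lt n hG
      have e4 := Nat.mod_lt n' hG
      rw [h3] at e1
      omega
    have h6 : |((n' - n : ℕ) : ℝ) * A - (((m' : ℤ) - m : ℤ) : ℝ) * B| ≤ 2 * δ := by
      rw [abs_le] at h1 h2 ⊢
      push_cast [Nat.cast_sub h4]
      constructor <;> nlinarith [h1.1, h1.2, h2.1, h2.2]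
    have h7 : n = n' := by
      by_contra hne
      have := hsep (n' - n) (by omega) h5 ((m' : ℤ) - m)
      linarith
    refine ⟨h7, ?_⟩
    subst h7
    rw [Nat.sub_self, Nat.cast_zero, zero_mul, zero_sub, abs_neg, abs_mul, abs_of_pos hB] at h6
    by_contra hne
    have h8 : (1 : ℝ) ≤ |(((m' : ℤ) - m : ℤ) : ℝ)| := by
      rw [← Int.cast_abs]
      have : (1 : ℤ) ≤ |(m' : ℤ) - m| := Int.one_le_abs (by omega)
      exact_mod_cast this
    nlinarith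
  have hinj : InjOn (fun p : ℕ × ℕ => p.1 / G)
      {p : ℕ × ℕ | |p.1 * A - p.2 * B| ≤ δ ∧ p.1 * A ≤ 2 * L} := by
    rintro ⟨n, m⟩ ⟨h1, _⟩ ⟨n', m'⟩ ⟨h2, _⟩ h3
    simp only at h1 h2 h3
    rcases le_total n n' with h | h
    · obtain ⟨e1, e2⟩ := key n m n' m' h1 h2 h3 h
      rw [e1, e2]
    · obtain ⟨e1, e2⟩ := key n' m' n m h2 h1 h3.symm h
      rw [e1, e2]
  refine ⟨Set.Finite.of_injOn hmaps hinj (Finset.finite_toSet _), ?_⟩
  have h1 := Set.ncard_le_ncard_of_injOn _ hmaps hinj (Finset.finite_toSet _)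
  rw [Set.ncard_coe_finset, Finset.card_range] at h1
  have h2 : (({p : ℕ × ℕ | |p.1 * A - p.2 * B| ≤ δ ∧ p.1 * A ≤ 2 * L}).ncard : ℝ) ≤
      ((⌊2 * L / (A * G)⌋₊ + 1 : ℕ) : ℝ) := by exact_mod_cast h1
  refine h2.trans ?_
  push_cast
  have := Nat.floor_le (by positivity : 0 ≤ 2 * L / (A * G))
  linarith

end Pool.Agent.H32x.ST
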