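import Pool.Agent.H32x.ST.Gen

/-!
# The second term: few near misses are necessary (helper32)
-/

set_option autoImplicit false

namespace Pool.Agent.H32x.ST

open Real Filter Set

/-- Kronecker with bounded gaps -/
lemma kronW {θ : ℝ} (hθ : Irrational θ) (β : ℝ) {τ : ℝ} (hτ : 0 < τ) :
    ∃ W : ℕ, ∀ N : ℕ, ∃ n : ℕ, N ≤ n ∧ n ≤ N + W ∧ ∃ m : ℤ, β < n * θ - m ∧ n * θ - m < β + τ := by
  obtain ⟨q, hq⟩ := exists_nat_gt (1 / τ)
  have hq0 : (0 : ℝ) < q := lt_trans (by positivity) hq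
  obtain ⟨k, hk0, -, hk⟩ := Real.exists_nat_abs_mul_sub_round_le θ
    (by exact_mod_cast hq0 : 0 < q)
  obtain ⟨ρ, hρ⟩ : ∃ ρ : ℝ, ρ = (k : ℝ) * θ - round ((k : ℝ) * θ) := ⟨_, rfl⟩
  rw [← hρ] at hk
  have hkτ : |ρ| < τ := by
    refine hk.trans_lt ?_
    rw [div_lt_iff₀ (by positivity)]
    rw [div_lt_iff₀ hτ] at hq
    nlinarith
  have hρ0 : ρ ≠ 0 := by
    intro h
    rw [h] at hρ
    apply hθ
    refine ⟨(round ((k : ℝ) * θ) : ℚ) / k, ?_⟩
    have hk' : (k : ℝ) ≠ 0 := by exact_mod_cast hk0.ne'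
    push_cast
    rw [div_eq_iff hk']
    linarith
  obtain ⟨Q, hQ⟩ := exists_nat_gt (1 / |ρ|)
  have hρabs : 0 < |ρ| := abs_pos.2 hρ0
  rw [div_lt_iff₀ hρabs] at hQ
  refine ⟨(Q + 1) * k, fun N => ?_⟩
  rcases lt_or_gt_of_ne hρ0 with h | h
  · -- negative step: go down to the window from above
    rw [abs_of_neg h] at hkτ hQ
    obtain ⟨z, hz⟩ : ∃ z : ℤ, z = ⌊(N : ℝ) * θ - β - τ⌋ := ⟨_, rfl⟩
    have f1 := Int.floor_le ((N : ℝ) * θ - β - τ)
    have f2 := Int.lt_floor_add_one ((N : ℝ) * θ - β - τ)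
    rw [← hz] at f1 f2
    have hpos : 0 ≤ ((N : ℝ) * θ - β - τ - z) / (-ρ) := div_nonneg (by linarith) (by linarith)
    have g1 := Nat.floor_le hpos
    have g2 := Nat.lt_floor_add_one (((N : ℝ) * θ - β - τ - z) / (-ρ))
    rw [le_div_iff₀ (by linarith)] at g1
    rw [div_lt_iff₀ (by linarith)] at g2
    obtain ⟨i, hi⟩ : ∃ i : ℕ, i = ⌊((N : ℝ) * θ - β - τ - z) / (-ρ)⌋₊ := ⟨_, rfl⟩
    rw [← hi] at g1 g2
    have e1 : ((N + (i + 1) * k : ℕ) : ℝ) * θ - ((((i : ℤ) + 1) * round ((k : ℝ) * θ) + z : ℤ) : ℝ) =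
        (N : ℝ) * θ + ((i : ℝ) + 1) * ρ - z := by
      rw [hρ]; push_cast; ring
    refine ⟨N + (i + 1) * k, Nat.le_add_right _ _, ?_,
      ((i : ℤ) + 1) * round ((k : ℝ) * θ) + z, ?_, ?_⟩
    · have h1 : (i : ℝ) * (-ρ) < (Q : ℝ) * (-ρ) := by linarith
      have h2 : (i : ℝ) < Q := lt_of_mul_lt_mul_right h1 (by linarith)
      have h3 : i < Q := by exact_mod_cast h2
      exact Nat.add_le_add_left (Nat.mul_le_mul_right k (by omega)) N
    · rw [e1]; linarith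
    · rw [e1]; linarith
  · rw [abs_of_pos h] at hkτ hQ
    obtain ⟨z, hz⟩ : ∃ z : ℤ, z = ⌈(N : ℝ) * θ - β⌉ := ⟨_, rfl⟩
    have f1 := Int.le_ceil ((N : ℝ) * θ - β)
    have f2 := Int.ceil_lt_add_one ((N : ℝ) * θ - β)
    rw [← hz] at f1 f2
    have hpos : 0 ≤ (β + z - (N : ℝ) * θ) / ρ := div_nonneg (by linarith) (by linarith)
    have g1 := Nat.floor_le hpos
    have g2 := Nat.lt_floor_add_one ((β + z - (N : ℝ) * θ) / ρ)
    rw [le_div_iff₀ h] at g1
    rw [div_lt_iff₀ h] at g2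
    obtain ⟨i, hi⟩ : ∃ i : ℕ, i = ⌊(β + z - (N : ℝ) * θ) / ρ⌋₊ := ⟨_, rfl⟩
    rw [← hi] at g1 g2
    have e1 : ((N + (i + 1) * k : ℕ) : ℝ) * θ - ((((i : ℤ) + 1) * round ((k : ℝ) * θ) + z : ℤ) : ℝ) =
        (N : ℝ) * θ + ((i : ℝ) + 1) * ρ - z := by
      rw [hρ]; push_cast; ring
    refine ⟨N + (i + 1) * k, Nat.le_add_right _ _, ?_,
      ((i : ℤ) + 1) * round ((k : ℝ) * θ) + z, ?_, ?_⟩
    · have h1 : (i : ℝ) * ρ < (Q : ℝ) * ρ := by linarith
      have h2 : (i : ℝ) < Q := lt_of_mul_lt_mul_right h1 h.le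
      have h3 : i < Q := by exact_mod_cast h2
      exact Nat.add_le_add_left (Nat.mul_le_mul_right k (by omega)) N
    · rw [e1]; linarith
    · rw [e1]; linarith

/-- the near misses in the box are few -/
lemma small_nm {A B : ℝ} (hA : 0 < A) (hB : 0 < B) (hirr : Irrational (A / B)) {η : ℝ}
    (hη : 0 < η) : ∃ K : ℝ, ∀ L : ℝ, 0 ≤ L →
      ((box A B L ∩ nms A B L).ncard : ℝ) ≤ η * L + K := by
  obtain ⟨C, hC⟩ : ∃ C, C = (1 - exp (-(1 : ℝ)))⁻¹ := ⟨_, rfl⟩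
  have hC0 : 0 < C := by
    rw [hC]
    have : exp (-(1 : ℝ)) < 1 := by rw [Real.exp_lt_one_iff]; norm_num
    exact inv_pos.2 (by linarith)
  obtain ⟨G, hG⟩ := exists_nat_gt (1 / (A * η))
  have hG0 : (0 : ℝ) < G := lt_trans (by positivity) hG
  obtain ⟨δG, hδ0, hδ⟩ := sep hB hirr G
  obtain ⟨δ, hδdef⟩ : ∃ δ, δ = min δG B / 3 := ⟨_, rfl⟩
  have hmin : 0 < min δG B := lt_min hδ0 hB
  have hδpos : 0 < δ := by rw [hδdef]; positivity
  have h2δ : 2 * δ < min δG B := by rw [hδdef]; linarith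
  obtain ⟨S₀, hS₀⟩ : ∃ S, C * exp (-S) = δ := ⟨-Real.log (δ / C), by
    rw [neg_neg, Real.exp_log (by positivity)]
    field_simp⟩
  obtain ⟨S, hS⟩ : ∃ S, S = max (2 * S₀) 2 := ⟨_, rfl⟩
  have hS2 : 2 ≤ S := by rw [hS]; exact le_max_right _ _
  have hSS : 2 * S₀ ≤ S := by rw [hS]; exact le_max_left _ _
  refine ⟨((box A B (S + 1)).ncard : ℝ) + 1, fun L hL => ?_⟩
  have hcov : box A B L ∩ nms A B L ⊆ box A B (S + 1) ∪
      {p : ℕ × ℕ | |p.1 * A - p.2 * B| ≤ δ ∧ p.1 * A ≤ 2 * (L / 2)} := by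
    rintro ⟨n, m⟩ ⟨h1, h2⟩
    have h1' : (n : ℝ) * A ≤ L := h1.1
    have h3 : |exp ((n : ℝ) * A) - exp ((m : ℝ) * B)| ^ 2 < exp ((n : ℝ) * A) := h2.1.2
    have h4 : |exp ((n : ℝ) * A) - exp ((m : ℝ) * B)| ≤ exp ((n : ℝ) * A / 2) := by
      have e1 : exp ((n : ℝ) * A) = exp ((n : ℝ) * A / 2) ^ 2 := by
        rw [← Real.exp_nat_mul]
        congr 1
        push_cast
        ring
      have e2 : |exp ((n : ℝ) * A) - exp ((m : ℝ) * B)| ^ 2 < exp ((n : ℝ) * A / 2) ^ 2 := by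
        rw [← e1]
        exact h3
      exact (lt_of_pow_lt_pow_left₀ 2 (exp_pos _).le e2).le
    by_cases c : (n : ℝ) * A ≤ S
    · left
      refine ⟨by show (n : ℝ) * A ≤ S + 1; linarith, ?_⟩
      show (m : ℝ) * B ≤ S + 1
      have e1 := (abs_le.1 h4).1
      have e2 : exp ((n : ℝ) * A / 2) ≤ exp ((n : ℝ) * A) := by
        apply Real.exp_le_exp.2
        have : 0 ≤ (n : ℝ) * A := by positivity
        linarith
      have e3 : exp ((n : ℝ) * A) ≤ exp S := Real.exp_le_exp.2 c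
      have e4 : exp ((m : ℝ) * B) ≤ exp (S + 1) := by
        rw [Real.exp_add]
        have e5 : (2 : ℝ) ≤ exp 1 := by
          have := Real.add_one_le_exp (1 : ℝ)
          linarith
        have e6 := exp_pos S
        nlinarith
      exact Real.exp_le_exp.1 e4
    · right
      push Not at c
      refine ⟨?_, by show (n : ℝ) * A ≤ 2 * (L / 2); linarith⟩
      show |(n : ℝ) * A - m * B| ≤ δ
      have e1 := (close one_pos h4 (Or.inl (by linarith))).1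
      rw [← hC] at e1
      refine e1.trans ?_
      rw [← hS₀]
      refine mul_le_mul_of_nonneg_left (Real.exp_le_exp.2 ?_) hC0.le
      linarith
  obtain ⟨f3, f4⟩ := mid_card (A := A) (B := B) (δ := δ) (L := L / 2) (G := G) hA hB
    (by exact_mod_cast hG0) (by linarith)
    (fun i hi1 hi2 k => (h2δ.trans_le (min_le_left _ _)).trans_le (hδ i hi1 hi2 k))
    (h2δ.trans_le (min_le_right _ _))
  have f0 := box_finite hA hB (by linarith : 0 ≤ S + 1)
  have n1 := Set.ncard_le_ncard hcov (f0.union f3)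
  have n2 := n1.trans (Set.ncard_union_le _ _)
  have n3 : ((box A B L ∩ nms A B L).ncard : ℝ) ≤ ((box A B (S + 1)).ncard : ℝ) +
      (({p : ℕ × ℕ | |p.1 * A - p.2 * B| ≤ δ ∧ p.1 * A ≤ 2 * (L / 2)}).ncard : ℝ) := by
    exact_mod_cast n2
  have n8 : 2 * (L / 2) / (A * G) ≤ η * L := by
    rw [div_le_iff₀ (by positivity)]
    rw [div_lt_iff₀ (by positivity)] at hG
    nlinarith
  linarith

theorem conv {A B : ℝ} (hA : 0 < A) (hB : 0 < B) (hirr : Irrational (A / B))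
    (hfin : ∀ L, (prs A B L).Finite)
    (hup : ∀ ε : ℝ, 0 < ε → ∀ᶠ L in atTop,
      G A B (fun L => ((prs A B L).ncard : ℝ)) L < 1 / A + 1 / B + ε) {η : ℝ} (hη : 0 < η) :
    ∀ᶠ L in atTop, ((nms A B L).ncard : ℝ) ≤ η * L := by
  have hsub : ∀ L, nms A B L ⊆ prs A B L := fun L p hp => hp.2
  have hnf : ∀ L, (nms A B L).Finite := fun L => (hfin L).subset (hsub L)
  obtain ⟨K, hK⟩ := small_nm hA hB hirr (by positivity : 0 < η / 8)
  obtain ⟨τ, hτ0, hτ1, hτ2⟩ : ∃ τ : ℝ, 0 < τ ∧ τ < 1 ∧ τ / A < η / 8 := by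
    refine ⟨min (1 / 2) (A * η / 16), lt_min (by norm_num) (by positivity),
      (min_le_left _ _).trans_lt (by norm_num), ?_⟩
    rw [div_lt_iff₀ hA]
    have := min_le_right (1 / 2) (A * η / 16)
    have h2 : 0 < A * η := by positivity
    linarith
  obtain ⟨W, hW⟩ := kronW hirr 0 hτ0
  obtain ⟨L₁, hL₁⟩ := eventually_atTop.1 (hup (η / 8) (by positivity))
  filter_upwards [eventually_ge_atTop L₁, eventually_ge_atTop (1 : ℝ), eventually_ge_atTop B,
    eventually_ge_atTop (2 * (|K| + η * ((W + 1) * A)) / η)] with L l1 l2 l3 l4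
  obtain ⟨n, hn1, hn2, m', hm1, hm2⟩ := hW ⌈L / A⌉₊
  rw [zero_add] at hm2
  have c1 := Nat.le_ceil (L / A)
  have c2 := Nat.ceil_lt_add_one (by positivity : 0 ≤ L / A)
  have hn1' : (⌈L / A⌉₊ : ℝ) ≤ n := by exact_mod_cast hn1
  have hn2' : (n : ℝ) ≤ (⌈L / A⌉₊ : ℝ) + W := by exact_mod_cast hn2
  obtain ⟨L', hL'⟩ : ∃ L' : ℝ, L' = n * A := ⟨_, rfl⟩
  have hLL' : L ≤ L' := by
    rw [hL', ← div_le_iff₀ hA]
    exact c1.trans hn1'
  have hL'L : L' ≤ L + (W + 1) * A := by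
    have e1 : (n : ℝ) ≤ L / A + 1 + W := by linarith
    have e2 : (n : ℝ) * A ≤ (L / A + 1 + W) * A := mul_le_mul_of_nonneg_right e1 hA.le
    have e3 : (L / A + 1 + W) * A = L + (W + 1) * A := by
      field_simp
      ring
    rw [hL']
    linarith
  have hL'0 : 0 < L' := by linarith
  have hLB : L' / B = (n : ℝ) * (A / B) := by
    rw [hL']
    ring
  have hm0 : 0 ≤ m' := by
    have e1 : 1 ≤ L' / B := by
      rw [le_div_iff₀ hB]
      linarith
    have e2 : (0 : ℝ) < m' := by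
      rw [← hLB] at hm2
      linarith
    exact_mod_cast e2.le
  obtain ⟨m, hm⟩ : ∃ m : ℕ, m' = m := ⟨m'.toNat, (Int.toNat_of_nonneg hm0).symm⟩
  rw [hm, Int.cast_natCast, ← hLB] at hm1 hm2
  have e3 : ⌊L' / A⌋₊ = n := by
    rw [hL', mul_div_cancel_right₀ _ hA.ne', Nat.floor_natCast]
  have e4 : ⌊L' / B⌋₊ = m := by
    rw [Nat.floor_eq_iff (by positivity)]
    constructor <;> linarith
  have hbox : ((box A B L').ncard : ℝ) = ((n : ℝ) + 1) * ((m : ℝ) + 1) := by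
    rw [box_ncard hA hB hL'0.le, e3, e4]
    push_cast
    ring
  have hboxge : L' ^ 2 / (A * B) + L' * (1 / A + 1 / B - η / 8) ≤ ((box A B L').ncard : ℝ) := by
    rw [hbox]
    have g1 : (m : ℝ) = L' / B - (L' / B - m) := by ring
    have g2 : (n : ℝ) = L' / A := by rw [hL', mul_div_cancel_right₀ _ hA.ne']
    obtain ⟨t, ht⟩ : ∃ t : ℝ, t = L' / B - m := ⟨_, rfl⟩
    rw [← ht] at g1 hm1 hm2
    rw [g2, g1]
    have g3 : (L' / A + 1) * (L' / B - t + 1) = L' ^ 2 / (A * B) + L' * (1 / A + 1 / B - t / A) +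
        (1 - t) := by
      field_simp
      ring
    rw [g3]
    have g4 : t / A ≤ η / 8 :=
      (div_le_div_of_nonneg_right hm2.le hA.le).trans hτ2.le
    have g5 : L' * (1 / A + 1 / B - η / 8) ≤ L' * (1 / A + 1 / B - t / A) :=
      mul_le_mul_of_nonneg_left (by linarith) hL'0.le
    linarith
  have hG := hL₁ L' (l1.trans hLL')
  unfold G at hG
  rw [div_lt_iff₀ hL'0] at hG
  have hunion : box A B L' ∪ nms A B L' ⊆ prs A B L' :=
    Set.union_subset (box_sub A B L') (hsub L')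
  have u1 := Set.ncard_le_ncard hunion (hfin L')
  have u2 := Set.ncard_union_add_ncard_inter (box A B L') (nms A B L')
    (box_finite hA hB hL'0.le) (hnf L')
  have u3 : ((box A B L').ncard : ℝ) + ((nms A B L').ncard : ℝ) ≤
      ((prs A B L').ncard : ℝ) + ((box A B L' ∩ nms A B L').ncard : ℝ) := by
    have : (box A B L').ncard + (nms A B L').ncard ≤
        (prs A B L').ncard + (box A B L' ∩ nms A B L').ncard := by omega
    exact_mod_cast this
  have u4 := hK L' hL'0.le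
  have u5 : ((nms A B L).ncard : ℝ) ≤ ((nms A B L').ncard : ℝ) := by
    have : nms A B L ⊆ nms A B L' := fun p hp =>
      ⟨hp.1, hp.2.trans (Real.exp_le_exp.2 hLL')⟩
    exact_mod_cast Set.ncard_le_ncard this (hnf L')
  have u6 : L' ≤ L + (W + 1) * A := hL'L
  rw [div_le_iff₀ hη] at l4
  have u7 := le_abs_self K
  have u8 : η * L' ≤ η * (L + (W + 1) * A) := mul_le_mul_of_nonneg_left u6 hη.le
  have u9 : 0 ≤ η * ((W + 1) * A) := by positivity
  nlinarith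

end Pool.Agent.H32x.ST
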