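import Pool.Agent.H32x.ST.Main

/-!
# The second term: the limit points (helper32)
-/

set_option autoImplicit false

namespace Pool.Agent.H32x.ST

open Real Filter Set

lemma kronZ {θ : ℝ} (hθ : Irrational θ) (β : ℝ) {τ : ℝ} (hτ : 0 < τ) (N : ℕ) :
    ∃ n : ℕ, N ≤ n ∧ ∃ m : ℤ, β < n * θ - m ∧ n * θ - m < β + τ := by
  obtain ⟨q, hq⟩ := exists_nat_gt (1 / τ)
  have hq0 : (0 : ℝ) < q := lt_trans (by positivity) hq
  obtain ⟨k, hk0, -, hk⟩ := Real.exists_nat_abs_mul_sub_round_le θ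
    (by exact_mod_cast hq0 : 0 < q)
  obtain ⟨ρ, hρ⟩ : ∃ ρ : ℝ, ρ = (k : ℝ) * θ - round ((k : ℝ) * θ) := ⟨_, rfl⟩
  rw [← hρ] at hk
  have hkτ : |ρ| < τ := by
    refine hk.trans_lt ?_
    rw [div_lt_iff₀ (by positivity)]
    rw [div_lt_iff₀ hτ] at hq
    nlinarith
  have hρ0 : ρ ≠ 0 := by
    intro h
    rw [h] at hρ
    apply hθ
    refine ⟨(round ((k : ℝ) * θ) : ℚ) / k, ?_⟩
    have hk' : (k : ℝ) ≠ 0 := by exact_mod_cast hk0.ne'
    push_cast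
    rw [div_eq_iff hk']
    linarith
  have hkR : (1 : ℝ) ≤ k := by exact_mod_cast hk0
  rcases lt_or_gt_of_ne hρ0 with h | h
  · -- negative step
    rw [abs_of_neg h] at hkτ
    obtain ⟨z, hz⟩ := exists_nat_gt ((N : ℝ) * (-ρ) + |β| + τ)
    have hβ := le_abs_self β
    have hN : (0 : ℝ) ≤ (N : ℝ) * (-ρ) := mul_nonneg (Nat.cast_nonneg _) (by linarith)
    have hpos : 0 ≤ ((z : ℝ) - β - τ) / (-ρ) := div_nonneg (by linarith) (by linarith)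
    have g1 := Nat.floor_le hpos
    have g2 := Nat.lt_floor_add_one (((z : ℝ) - β - τ) / (-ρ))
    rw [le_div_iff₀ (by linarith)] at g1
    rw [div_lt_iff₀ (by linarith)] at g2
    obtain ⟨i, hi⟩ : ∃ i : ℕ, i = ⌊((z : ℝ) - β - τ) / (-ρ)⌋₊ := ⟨_, rfl⟩
    rw [← hi] at g1 g2
    refine ⟨(i + 1) * k, ?_, ((i : ℤ) + 1) * round ((k : ℝ) * θ) - z, ?_, ?_⟩
    · have e1 : N ≤ i := by
        rw [hi]
        apply Nat.le_floor
        rw [le_div_iff₀ (by linarith)]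
        linarith
      nlinarith
    · have e1 : (((i + 1) * k : ℕ) : ℝ) * θ - (((((i : ℤ) + 1) * round ((k : ℝ) * θ) - z : ℤ)) : ℝ) =
          ((i : ℝ) + 1) * ρ + z := by
        rw [hρ]; push_cast; ring
      rw [e1]
      linarith
    · have e1 : (((i + 1) * k : ℕ) : ℝ) * θ - (((((i : ℤ) + 1) * round ((k : ℝ) * θ) - z : ℤ)) : ℝ) =
          ((i : ℝ) + 1) * ρ + z := by
        rw [hρ]; push_cast; ring
      rw [e1]
      linarith
  · -- positive step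
    rw [abs_of_pos h] at hkτ
    obtain ⟨z, hz⟩ := exists_nat_gt ((N : ℝ) * ρ + |β|)
    have hβ := neg_abs_le β
    have hN : (0 : ℝ) ≤ (N : ℝ) * ρ := mul_nonneg (Nat.cast_nonneg _) (by linarith)
    have hpos : 0 ≤ ((z : ℝ) + β) / ρ := div_nonneg (by linarith) (by linarith)
    have g1 := Nat.floor_le hpos
    have g2 := Nat.lt_floor_add_one (((z : ℝ) + β) / ρ)
    rw [le_div_iff₀ h] at g1
    rw [div_lt_iff₀ h] at g2
    obtain ⟨i, hi⟩ : ∃ i : ℕ, i = ⌊((z : ℝ) + β) / ρ⌋₊ := ⟨_, rfl⟩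
    rw [← hi] at g1 g2
    refine ⟨(i + 1) * k, ?_, ((i : ℤ) + 1) * round ((k : ℝ) * θ) + z, ?_, ?_⟩
    · have e1 : N ≤ i := by
        rw [hi]
        apply Nat.le_floor
        rw [le_div_iff₀ h]
        linarith
      nlinarith
    · have e1 : (((i + 1) * k : ℕ) : ℝ) * θ - (((((i : ℤ) + 1) * round ((k : ℝ) * θ) + z : ℤ)) : ℝ) =
          ((i : ℝ) + 1) * ρ - z := by
        rw [hρ]; push_cast; ring
      rw [e1]
      linarith
    · have e1 : (((i + 1) * k : ℕ) : ℝ) * θ - (((((i : ℤ) + 1) * round ((k : ℝ) * θ) + z : ℤ)) : ℝ) =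
          ((i : ℝ) + 1) * ρ - z := by
        rw [hρ]; push_cast; ring
      rw [e1]
      linarith

lemma kron {θ : ℝ} (hθ : Irrational θ) (hθ0 : 0 < θ) (β : ℝ) {τ : ℝ} (hτ : 0 < τ) (N : ℕ) :
    ∃ n : ℕ, N ≤ n ∧ ∃ m : ℕ, β < n * θ - m ∧ n * θ - m < β + τ := by
  obtain ⟨N', hN'⟩ := exists_nat_gt ((|β| + τ) / θ)
  obtain ⟨n, hn, m, h1, h2⟩ := kronZ hθ β hτ (max N N')
  refine ⟨n, (le_max_left _ _).trans hn, m.toNat, ?_⟩
  have h3 : (N' : ℝ) ≤ n := by exact_mod_cast (le_max_right _ _).trans hn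
  rw [div_lt_iff₀ hθ0] at hN'
  have h4 := le_abs_self β
  have h5 : (0 : ℝ) < m := by nlinarith
  have h6 : 0 ≤ m := by exact_mod_cast h5.le
  have h7 : ((m.toNat : ℕ) : ℝ) = (m : ℝ) := by
    have : ((m.toNat : ℕ) : ℤ) = m := Int.toNat_of_nonneg h6
    exact_mod_cast this
  rw [h7]
  exact ⟨h1, h2⟩

/-- the normalized second term of the counting function `N` -/
noncomputable def G (A B : ℝ) (N : ℝ → ℝ) (L : ℝ) : ℝ := (N L - L ^ 2 / (A * B)) / L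

/-- `N` is at least the number of the pairs of the box -/
def LowAt (A B : ℝ) (N : ℝ → ℝ) (L : ℝ) : Prop :=
  ((⌊L / A⌋₊ : ℝ) + 1) * ((⌊L / B⌋₊ : ℝ) + 1) ≤ N L

/-- `N` is at most the number of the pairs of a slightly larger box and `o(L)` -/
def Up (A B : ℝ) (N : ℝ → ℝ) : Prop := ∀ ε η : ℝ, 0 < ε → 0 < η → ∀ᶠ L in atTop,
  N L ≤ ((⌊(L + ε) / A⌋₊ : ℝ) + 1) * ((⌊(L + ε) / B⌋₊ : ℝ) + 1) + η * L

lemma G_nonneg {A B L : ℝ} {N : ℝ → ℝ} (hA : 0 < A) (hB : 0 < B) (hL : 0 < L)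
    (h1 : LowAt A B N L) : 0 ≤ G A B N L := by
  unfold LowAt at h1
  have h2 := (Nat.lt_floor_add_one (L / A)).le
  have h3 := (Nat.lt_floor_add_one (L / B)).le
  have h4 : L / A * (L / B) ≤ ((⌊L / A⌋₊ : ℝ) + 1) * ((⌊L / B⌋₊ : ℝ) + 1) :=
    mul_le_mul h2 h3 (by positivity) (by positivity)
  have h5 : L / A * (L / B) = L ^ 2 / (A * B) := by
    field_simp
  unfold G
  apply div_nonneg _ hL.le
  linarith

/-- good points -/
lemma pts {A B : ℝ} (hA : 0 < A) (hB : 0 < B) (hirr : Irrational (A / B)) {α τ : ℝ} (hα : 0 ≤ α)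
    (hτ : 0 < τ) (hατ : α + τ < 1) : ∃ ε : ℝ, 0 < ε ∧ ∀ L₀ : ℝ, ∃ L : ℝ, L₀ ≤ L ∧ 1 ≤ L ∧
      ∃ t : ℝ, α < t ∧ t < α + τ ∧ ∀ e : ℝ, 0 ≤ e → e ≤ ε →
        ((⌊(L + e) / A⌋₊ : ℝ) + 1) * ((⌊(L + e) / B⌋₊ : ℝ) + 1) =
          L ^ 2 / (A * B) + L * ((1 - t) / A + (1 - α) / B) + (1 - α) * (1 - t) := by
  obtain ⟨ε, hε⟩ : ∃ ε, ε = min (A * (1 - α)) (B * (1 - (α + τ))) / 2 := ⟨_, rfl⟩
  have hε0 : 0 < min (A * (1 - α)) (B * (1 - (α + τ))) :=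
    lt_min (mul_pos hA (by linarith)) (mul_pos hB (by linarith))
  have hε1 : ε < A * (1 - α) := by
    have := min_le_left (A * (1 - α)) (B * (1 - (α + τ)))
    linarith
  have hε2 : ε < B * (1 - (α + τ)) := by
    have := min_le_right (A * (1 - α)) (B * (1 - (α + τ)))
    linarith
  refine ⟨ε, by rw [hε]; positivity, fun L₀ => ?_⟩
  obtain ⟨N, hN⟩ := exists_nat_gt ((|L₀| + 1) / A)
  have hθ0 : 0 < A / B := by positivity
  obtain ⟨n, hn, m, h1, h2⟩ := kron hirr hθ0 (α - α * (A / B)) hτ N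
  have hnR : (N : ℝ) ≤ n := by exact_mod_cast hn
  rw [div_lt_iff₀ hA] at hN
  have hL0 : |L₀| + 1 ≤ ((n : ℝ) + α) * A := by nlinarith
  have hL0' := le_abs_self L₀
  have hL0'' := abs_nonneg L₀
  refine ⟨((n : ℝ) + α) * A, by linarith, by linarith,
    ((n : ℝ) + α) * (A / B) - m, by linarith, by linarith, fun e he0 he => ?_⟩
  have e1 : (((n : ℝ) + α) * A + e) / A = n + (α + e / A) := by
    field_simp
    ring
  have e2 : (((n : ℝ) + α) * A + e) / B = m + ((((n : ℝ) + α) * (A / B) - m) + e / B) := by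
    field_simp
    ring
  have e3 : ⌊(((n : ℝ) + α) * A + e) / A⌋₊ = n := by
    rw [Nat.floor_eq_iff (by positivity), e1]
    have g1 : e / A < 1 - α := by
      rw [div_lt_iff₀ hA]
      linarith
    have g2 : 0 ≤ e / A := by positivity
    constructor <;> linarith
  have e4 : ⌊(((n : ℝ) + α) * A + e) / B⌋₊ = m := by
    rw [Nat.floor_eq_iff (by positivity), e2]
    have g1 : e / B < 1 - (α + τ) := by
      rw [div_lt_iff₀ hB]
      linarith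
    have g2 : 0 ≤ e / B := by positivity
    constructor <;> linarith
  rw [e3, e4]
  field_simp
  ring

theorem gen_low {A B : ℝ} {N : ℝ → ℝ} (hA : 0 < A) (hB : 0 < B) (hirr : Irrational (A / B))
    (hlow : ∀ L : ℝ, 1 ≤ L → LowAt A B N L) {ε' : ℝ} (hε' : 0 < ε') (L₀ : ℝ) :
    ∃ L : ℝ, L₀ ≤ L ∧ 1 ≤ L ∧ 1 / A + 1 / B - ε' < G A B N L := by
  obtain ⟨τ, hτ0, hτ1, hτ2⟩ : ∃ τ : ℝ, 0 < τ ∧ τ < 1 ∧ τ / A < ε' := by
    refine ⟨min (1 / 2) (A * ε' / 2), lt_min (by norm_num) (by positivity),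
      (min_le_left _ _).trans_lt (by norm_num), ?_⟩
    rw [div_lt_iff₀ hA]
    have := min_le_right (1 / 2) (A * ε' / 2)
    have h2 : 0 < A * ε' := by positivity
    linarith
  obtain ⟨ε, hε, hpts⟩ := pts hA hB hirr le_rfl hτ0 (by linarith)
  obtain ⟨L, h1, h2, t, h3, h4, h5⟩ := hpts L₀
  refine ⟨L, h1, h2, ?_⟩
  have h6 := hlow L h2
  unfold LowAt at h6
  have h7 := h5 0 le_rfl hε.le
  rw [add_zero] at h7
  rw [h7] at h6
  unfold G
  rw [lt_div_iff₀ (by linarith)]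
  have h8 : t / A < ε' := by
    refine lt_of_le_of_lt ?_ hτ2
    exact div_le_div_of_nonneg_right (by linarith) hA.le
  have h9 : (1 - t) / A + (1 - 0) / B = 1 / A + 1 / B - t / A := by
    field_simp
    ring
  rw [h9] at h6
  nlinarith

theorem gen_up {A B : ℝ} {N : ℝ → ℝ} (hA : 0 < A) (hB : 0 < B) (hup : Up A B N)
    {ε' : ℝ} (hε' : 0 < ε') : ∀ᶠ L in atTop, G A B N L < 1 / A + 1 / B + ε' := by
  obtain ⟨ε, hε0, hε1⟩ : ∃ ε : ℝ, 0 < ε ∧ 2 * ε / (A * B) < ε' / 4 := by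
    refine ⟨ε' * (A * B) / 16, by positivity, ?_⟩
    rw [div_lt_iff₀ (by positivity)]
    have : 0 < ε' * (A * B) := by positivity
    linarith
  filter_upwards [hup ε (ε' / 4) hε0 (by positivity),
    eventually_ge_atTop (1 : ℝ),
    eventually_gt_atTop ((ε / A + 1) * (ε / B + 1) * 4 / ε')] with L h2 h3 h4
  have hL : 0 < L := by linarith
  have e1 := Nat.floor_le (by positivity : 0 ≤ (L + ε) / A)
  have e2 := Nat.floor_le (by positivity : 0 ≤ (L + ε) / B)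
  have e3 : ((⌊(L + ε) / A⌋₊ : ℝ) + 1) * ((⌊(L + ε) / B⌋₊ : ℝ) + 1) ≤
      ((L + ε) / A + 1) * ((L + ε) / B + 1) :=
    mul_le_mul (by linarith) (by linarith) (by positivity) (by positivity)
  have e4 : ((L + ε) / A + 1) * ((L + ε) / B + 1) = L ^ 2 / (A * B) +
      L * (1 / A + 1 / B + 2 * ε / (A * B)) + (ε / A + 1) * (ε / B + 1) := by
    field_simp
    ring
  rw [div_lt_iff₀ hε'] at h4
  unfold G
  rw [div_lt_iff₀ hL]
  have e5 : L * (1 / A + 1 / B + 2 * ε / (A * B)) ≤ L * (1 / A + 1 / B + ε' / 4) :=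
    mul_le_mul_of_nonneg_left (by linarith) hL.le
  have e6 : 0 < ε' * L := by positivity
  nlinarith

theorem gen_cluster {A B : ℝ} {N : ℝ → ℝ} (hA : 0 < A) (hB : 0 < B) (hirr : Irrational (A / B))
    (hlow : ∀ᶠ L in atTop, LowAt A B N L) (hup : Up A B N)
    {c : ℝ} (hc0 : 0 ≤ c) (hc1 : c ≤ 1 / A + 1 / B) {ε' : ℝ} (hε' : 0 < ε') (L₀ : ℝ) :
    ∃ L : ℝ, L₀ ≤ L ∧ |G A B N L - c| < ε' := by
  obtain ⟨s, hs⟩ : ∃ s, s = 1 / A + 1 / B := ⟨_, rfl⟩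
  have hs0 : 0 < s := by rw [hs]; positivity
  rw [← hs] at hc1
  obtain ⟨c0, hc0pos, hc0s, hc0c, hc0c'⟩ : ∃ c0 : ℝ, 0 < c0 ∧ c0 ≤ s ∧ c ≤ c0 ∧ c0 ≤ c + ε' / 4 := by
    refine ⟨max c (min s (ε' / 4)), lt_max_of_lt_right (lt_min hs0 (by positivity)),
      max_le hc1 (min_le_left _ _), le_max_left _ _, max_le (by linarith) ?_⟩
    exact (min_le_right _ _).trans (by linarith)
  obtain ⟨α, hα⟩ : ∃ α, α = 1 - c0 / s := ⟨_, rfl⟩
  have hα0 : 0 ≤ α := by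
    rw [hα, sub_nonneg, div_le_one hs0]
    exact hc0s
  have hα1 : 0 < 1 - α := by
    rw [hα, sub_sub_cancel]
    positivity
  have hαs : (1 - α) * s = c0 := by
    rw [hα, sub_sub_cancel, div_mul_cancel₀ _ hs0.ne']
  obtain ⟨τ, hτ0, hτ1, hτ2⟩ : ∃ τ : ℝ, 0 < τ ∧ α + τ < 1 ∧ τ / A < ε' / 4 := by
    refine ⟨min ((1 - α) / 2) (A * ε' / 8), lt_min (by positivity) (by positivity), ?_, ?_⟩
    · have := min_le_left ((1 - α) / 2) (A * ε' / 8)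
      linarith
    · rw [div_lt_iff₀ hA]
      have := min_le_right ((1 - α) / 2) (A * ε' / 8)
      have h2 : 0 < A * ε' := by positivity
      linarith
  obtain ⟨ε, hε0, hpts⟩ := pts hA hB hirr hα0 hτ0 hτ1
  obtain ⟨L₂, hL₂⟩ := eventually_atTop.1 (hlow.and (hup ε (ε' / 4) hε0 (by positivity)))
  obtain ⟨L, h1, h2, t, h3, h4, h5⟩ := hpts (max (max L₀ L₂) (4 / ε'))
  have hL : 0 < L := by linarith
  have g1 : L₀ ≤ L := ((le_max_left _ _).trans (le_max_left _ _)).trans h1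
  have g2 : L₂ ≤ L := ((le_max_right _ _).trans (le_max_left _ _)).trans h1
  have g3 : 4 / ε' ≤ L := (le_max_right _ _).trans h1
  rw [div_le_iff₀ hε'] at g3
  obtain ⟨hl, hu⟩ := hL₂ L g2
  unfold LowAt at hl
  have e0 := h5 0 le_rfl hε0.le
  rw [add_zero] at e0
  rw [e0] at hl
  rw [h5 ε hε0.le le_rfl] at hu
  have e1 : (1 - t) / A + (1 - α) / B = c0 - (t - α) / A := by
    rw [← hαs, hs]
    field_simp
    ring
  rw [e1] at hl hu
  have e2 : (t - α) / A < ε' / 4 :=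
    lt_of_le_of_lt (div_le_div_of_nonneg_right (by linarith) hA.le) hτ2
  have e3 : 0 < (t - α) / A := div_pos (by linarith) hA
  have e4 : 0 ≤ (1 - α) * (1 - t) := mul_nonneg hα1.le (by linarith)
  have e5 : (1 - α) * (1 - t) ≤ 1 := by nlinarith
  refine ⟨L, g1, ?_⟩
  unfold G
  rw [abs_lt]
  constructor
  · rw [lt_sub_iff_add_lt, lt_div_iff₀ hL]
    nlinarith
  · rw [sub_lt_iff_lt_add, div_lt_iff₀ hL]
    nlinarith

/-! ### the truncated count -/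

/-- the pairs with `n ≤ T` -/
def prsT (A B T L : ℝ) : Set (ℕ × ℕ) :=
  {p | (p.1 : ℝ) ≤ T ∧ |exp (p.1 * A) - exp (p.2 * B)| ≤ exp L}

lemma upperT {A B : ℝ} (hA : 0 < A) (hB : 0 < B) (hirr : Irrational (A / B)) {K : ℝ} (hK0 : 0 < K)
    {ε η : ℝ} (hε : 0 < ε) (hη : 0 < η) : ∀ᶠ L in atTop, ∀ T : ℝ, T ≤ K * L →
      (prsT A B T L).Finite ∧ ((prsT A B T L).ncard : ℝ) ≤
        ((⌊(L + ε) / A⌋₊ : ℝ) + 1) * ((⌊(L + ε) / B⌋₊ : ℝ) + 1) + η * L := by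
  obtain ⟨C, hC⟩ : ∃ C, C = (1 - exp (-ε))⁻¹ := ⟨_, rfl⟩
  have hC0 : 0 < C := by
    rw [hC]
    have : exp (-ε) < 1 := by rw [Real.exp_lt_one_iff]; linarith
    exact inv_pos.2 (by linarith)
  obtain ⟨G, hG⟩ := exists_nat_gt (4 * K / η)
  have hG0 : (0 : ℝ) < G := lt_trans (by positivity) hG
  obtain ⟨δG, hδ0, hδ⟩ := sep hB hirr G
  obtain ⟨δ, hδdef⟩ : ∃ δ, δ = min δG B / 3 := ⟨_, rfl⟩
  have hmin : 0 < min δG B := lt_min hδ0 hB
  have hδpos : 0 < δ := by rw [hδdef]; positivity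
  have h2δ : 2 * δ < min δG B := by rw [hδdef]; linarith
  obtain ⟨S, hS⟩ : ∃ S, C * exp (-S) = δ := ⟨-Real.log (δ / C), by
    rw [neg_neg, Real.exp_log (by positivity)]
    field_simp⟩
  obtain ⟨K', hK⟩ := near_card hA hB C S
  filter_upwards [eventually_ge_atTop (1 : ℝ),
    eventually_ge_atTop (((K' : ℝ) + 1) * 4 / η)] with L l2 l3
  intro T hT
  have hcov : prsT A B T L ⊆ box A B (L + ε) ∪
      ({p : ℕ × ℕ | |p.1 * A - p.2 * B| ≤ C ∧ L - C ≤ p.1 * A ∧ p.1 * A ≤ L + S} ∪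
      {p : ℕ × ℕ | |p.1 * A - p.2 * B| ≤ δ ∧ p.1 * A ≤ 2 * (K * L * A / 2)}) := by
    rintro ⟨n, m⟩ ⟨hn, hp⟩
    have hp' : |exp ((n : ℝ) * A) - exp ((m : ℝ) * B)| ≤ exp L := hp
    have hn' : (n : ℝ) ≤ T := hn
    by_cases c1 : (n : ℝ) * A ≤ L + ε ∧ (m : ℝ) * B ≤ L + ε
    · exact Or.inl c1
    right
    have hm : L + ε < (n : ℝ) * A ∨ L + ε < (m : ℝ) * B := by
      by_contra hcon
      push Not at hcon
      exact c1 hcon
    obtain ⟨g1, g2⟩ := close hε hp' hm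
    rw [← hC] at g1 g2
    by_cases c3 : (n : ℝ) * A ≤ L + S
    · left
      refine ⟨g2, ?_, c3⟩
      show L - C ≤ (n : ℝ) * A
      have := abs_le.1 g2
      rcases hm with hm | hm
      · linarith
      · linarith [this.1]
    · right
      refine ⟨?_, ?_⟩
      · show |(n : ℝ) * A - m * B| ≤ δ
        refine g1.trans ?_
        rw [← hS]
        refine mul_le_mul_of_nonneg_left (Real.exp_le_exp.2 ?_) hC0.le
        push Not at c3
        linarith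
      · show (n : ℝ) * A ≤ 2 * (K * L * A / 2)
        have : (n : ℝ) ≤ K * L := hn'.trans hT
        nlinarith
  obtain ⟨f1, f2⟩ := hK L
  have hL0 : 0 < L := by linarith
  obtain ⟨f3, f4⟩ := mid_card (A := A) (B := B) (δ := δ) (L := K * L * A / 2) (G := G) hA hB
    (by exact_mod_cast hG0) (by positivity)
    (fun i hi1 hi2 k => (h2δ.trans_le (min_le_left _ _)).trans_le (hδ i hi1 hi2 k))
    (h2δ.trans_le (min_le_right _ _))
  have hLε : 0 ≤ L + ε := by linarith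
  have f0 := box_finite hA hB hLε
  have hunion : (box A B (L + ε) ∪
      ({p : ℕ × ℕ | |p.1 * A - p.2 * B| ≤ C ∧ L - C ≤ p.1 * A ∧ p.1 * A ≤ L + S} ∪
      {p : ℕ × ℕ | |p.1 * A - p.2 * B| ≤ δ ∧ p.1 * A ≤ 2 * (K * L * A / 2)})).Finite :=
    f0.union (f1.union f3)
  refine ⟨hunion.subset hcov, ?_⟩
  have n1 := Set.ncard_le_ncard hcov hunion
  have n2 := n1.trans (Set.ncard_union_le _ _)
  have n3 := Set.ncard_union_le
    {p : ℕ × ℕ | |p.1 * A - p.2 * B| ≤ C ∧ L - C ≤ p.1 * A ∧ p.1 * A ≤ L + S}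
    {p : ℕ × ℕ | |p.1 * A - p.2 * B| ≤ δ ∧ p.1 * A ≤ 2 * (K * L * A / 2)}
  have n5 : (prsT A B T L).ncard ≤ (⌊(L + ε) / A⌋₊ + 1) * (⌊(L + ε) / B⌋₊ + 1) + (K' +
      ({p : ℕ × ℕ | |p.1 * A - p.2 * B| ≤ δ ∧ p.1 * A ≤ 2 * (K * L * A / 2)}).ncard) := by
    rw [box_ncard hA hB hLε] at n2
    omega
  have n6 : ((prsT A B T L).ncard : ℝ) ≤
      ((⌊(L + ε) / A⌋₊ : ℝ) + 1) * ((⌊(L + ε) / B⌋₊ : ℝ) + 1) + ((K' : ℝ) +
        (({p : ℕ × ℕ | |p.1 * A - p.2 * B| ≤ δ ∧ p.1 * A ≤ 2 * (K * L * A / 2)}).ncard : ℝ)) := by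
    exact_mod_cast n5
  have n7 : (K' : ℝ) + 1 ≤ η / 4 * L := by
    rw [div_le_iff₀ hη] at l3
    linarith
  have n8 : 2 * (K * L * A / 2) / (A * G) ≤ η / 4 * L := by
    rw [div_le_iff₀ (by positivity)]
    rw [div_lt_iff₀ hη] at hG
    have e0 : 0 < L * A := by positivity
    nlinarith
  have n9 : 0 ≤ η * L := by positivity
  linarith

lemma lowerT {A B L T : ℝ} (hA : 0 < A) (hB : 0 < B) (hL : 0 ≤ L) (hT : L / A ≤ T)
    (hfin : (prsT A B T L).Finite) :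
    ((⌊L / A⌋₊ : ℝ) + 1) * ((⌊L / B⌋₊ : ℝ) + 1) ≤ ((prsT A B T L).ncard : ℝ) := by
  have hsub : box A B L ⊆ prsT A B T L := by
    intro p hp
    refine ⟨?_, box_sub A B L hp⟩
    have h1 : (p.1 : ℝ) * A ≤ L := hp.1
    rw [← le_div_iff₀ hA] at h1
    exact h1.trans hT
  have h1 := Set.ncard_le_ncard hsub hfin
  rw [box_ncard hA hB hL] at h1
  exact_mod_cast h1

end Pool.Agent.H32x.ST
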