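import Pool.Agent.H32x.ST.Basic

/-!
# The second term: the sandwich and the limit points (helper32)
-/

set_option autoImplicit false

namespace Pool.Agent.H32x.ST

open Real Filter Set

/-- the coprime near misses of height at most `exp L` -/
def nms (A B L : ℝ) : Set (ℕ × ℕ) :=
  {p | (p.1.Coprime p.2 ∧ |exp (p.1 * A) - exp (p.2 * B)| ^ 2 < exp (p.1 * A)) ∧
    |exp (p.1 * A) - exp (p.2 * B)| ≤ exp L}

lemma pow_ineq {u v : ℝ} (hu : 0 < u) (hv : 0 < v) (d : ℕ) :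
    |u - v| * u ^ d ≤ |u ^ (d + 1) - v ^ (d + 1)| := by
  rcases le_total v u with h | h
  · have h1 : v ^ d ≤ u ^ d := pow_le_pow_left₀ hv.le h d
    have h2 : v ^ (d + 1) ≤ u ^ (d + 1) := pow_le_pow_left₀ hv.le h _
    rw [abs_of_nonneg (by linarith), abs_of_nonneg (by linarith), pow_succ, pow_succ]
    nlinarith
  · have h1 : u ^ d ≤ v ^ d := pow_le_pow_left₀ hu.le h d
    have h2 : u ^ (d + 1) ≤ v ^ (d + 1) := pow_le_pow_left₀ hu.le h _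
    rw [abs_of_nonpos (by linarith), abs_of_nonpos (by linarith), pow_succ, pow_succ]
    nlinarith

lemma ne_of_irr {A B : ℝ} (hB : 0 < B) (hirr : Irrational (A / B)) {n m : ℕ} (hn : 0 < n) :
    (n : ℝ) * A ≠ m * B := by
  intro h
  apply hirr
  refine ⟨(m : ℚ) / n, ?_⟩
  have hn' : (n : ℝ) ≠ 0 := by exact_mod_cast hn.ne'
  push_cast
  rw [div_eq_div_iff hn' hB.ne']
  linarith

lemma far {A B : ℝ} (hA : 0 < A) (hB : 0 < B) (hirr : Irrational (A / B))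
    (hfin : (nms A B 0).Finite) : ∃ L₀ : ℝ, ∀ L : ℝ, L₀ ≤ L →
      {p : ℕ × ℕ | 2 * L < p.1 * A ∧ |exp (p.1 * A) - exp (p.2 * B)| ≤ exp L} ⊆ nms A B L := by
  obtain ⟨M, hM⟩ := (hfin.image fun p : ℕ × ℕ =>
    (p.1 : ℝ) * A - Real.log |exp (p.1 * A) - exp (p.2 * B)|).bddAbove
  refine ⟨max M 1, fun L hL => ?_⟩
  have hL1 : 1 ≤ L := (le_max_right _ _).trans hL
  have hLM : M ≤ L := (le_max_left _ _).trans hL
  rintro ⟨n, m⟩ ⟨h1, h2⟩
  simp only at h1 h2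
  have hn : 0 < n := by
    rcases Nat.eq_zero_or_pos n with h | h
    · subst h
      rw [Nat.cast_zero, zero_mul] at h1
      linarith
    · exact h
  have h3 : |exp ((n : ℝ) * A) - exp ((m : ℝ) * B)| ^ 2 < exp ((n : ℝ) * A) := by
    have e1 : |exp ((n : ℝ) * A) - exp ((m : ℝ) * B)| ^ 2 ≤ exp L ^ 2 :=
      pow_le_pow_left₀ (abs_nonneg _) h2 2
    have e2 : exp L ^ 2 = exp (2 * L) := by
      rw [← Real.exp_nat_mul]
      norm_num
    have e3 : exp (2 * L) < exp ((n : ℝ) * A) := Real.exp_lt_exp.2 h1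
    rw [e2] at e1
    exact e1.trans_lt e3
  refine ⟨⟨?_, h3⟩, h2⟩
  show n.Coprime m
  by_contra hcop
  obtain ⟨n', m', hc, en, em⟩ := Nat.exists_coprime n m
  have hd0 : 0 < n.gcd m := Nat.gcd_pos_of_pos_left _ hn
  have hd1 : n.gcd m ≠ 1 := hcop
  obtain ⟨d, hd⟩ : ∃ d, n.gcd m = d + 2 := ⟨n.gcd m - 2, by omega⟩
  rw [hd] at en em
  have hn' : 0 < n' := by
    rcases Nat.eq_zero_or_pos n' with h | h
    · rw [h, zero_mul] at en
      omega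
    · exact h
  have hne := ne_of_irr hB hirr (n := n') (m := m') hn'
  have hn'R : (1 : ℝ) ≤ n' := by exact_mod_cast hn'
  have hnA : (n : ℝ) * A = (((d + 1 : ℕ) + 1 : ℕ) : ℝ) * ((n' : ℝ) * A) := by
    rw [en]
    push_cast
    ring
  have hmB : (m : ℝ) * B = (((d + 1 : ℕ) + 1 : ℕ) : ℝ) * ((m' : ℝ) * B) := by
    rw [em]
    push_cast
    ring
  have h4 := pow_ineq (exp_pos ((n' : ℝ) * A)) (exp_pos ((m' : ℝ) * B)) (d + 1)
  rw [← Real.exp_nat_mul, ← Real.exp_nat_mul, ← Real.exp_nat_mul, ← hnA, ← hmB] at h4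
  have h5 : |exp ((n' : ℝ) * A) - exp ((m' : ℝ) * B)| * exp (((d + 1 : ℕ) : ℝ) * ((n' : ℝ) * A)) ≤
      exp L := h4.trans h2
  have h6 : L < ((d + 1 : ℕ) : ℝ) * ((n' : ℝ) * A) := by
    have e1 : 0 < (n' : ℝ) * A := by positivity
    rw [hnA] at h1
    push_cast at h1 ⊢
    nlinarith
  have h7 : |exp ((n' : ℝ) * A) - exp ((m' : ℝ) * B)| < 1 := by
    by_contra hcon
    push Not at hcon
    have e1 := Real.exp_lt_exp.2 h6
    have e2 : exp (((d + 1 : ℕ) : ℝ) * ((n' : ℝ) * A)) ≤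
        |exp ((n' : ℝ) * A) - exp ((m' : ℝ) * B)| * exp (((d + 1 : ℕ) : ℝ) * ((n' : ℝ) * A)) :=
      le_mul_of_one_le_left (exp_pos _).le hcon
    linarith
  have h8 : 0 < |exp ((n' : ℝ) * A) - exp ((m' : ℝ) * B)| := by
    rw [abs_pos, sub_ne_zero]
    intro h
    exact hne (Real.exp_injective h)
  have h9 : ((n', m') : ℕ × ℕ) ∈ nms A B 0 := by
    refine ⟨⟨hc, ?_⟩, ?_⟩
    · have e1 : 1 < exp ((n' : ℝ) * A) := Real.one_lt_exp_iff.2 (by positivity)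
      have e2 : |exp ((n' : ℝ) * A) - exp ((m' : ℝ) * B)| ^ 2 < 1 := by
        rw [sq]
        nlinarith
      exact e2.trans e1
    · show |exp ((n' : ℝ) * A) - exp ((m' : ℝ) * B)| ≤ exp 0
      rw [Real.exp_zero]
      exact h7.le
  have h10 := hM ⟨_, h9, rfl⟩
  simp only at h10
  have h11 : Real.log |exp ((n' : ℝ) * A) - exp ((m' : ℝ) * B)| +
      ((d + 1 : ℕ) : ℝ) * ((n' : ℝ) * A) ≤ L := by
    have e1 := Real.log_le_log (by positivity) h5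
    rwa [Real.log_mul h8.ne' (exp_pos _).ne', Real.log_exp, Real.log_exp] at e1
  rw [hnA] at h1
  push_cast at h1 h11
  nlinarith

lemma lower {A B L : ℝ} (hA : 0 < A) (hB : 0 < B) (hL : 0 ≤ L) (hfin : (prs A B L).Finite) :
    ((⌊L / A⌋₊ : ℝ) + 1) * ((⌊L / B⌋₊ : ℝ) + 1) ≤ ((prs A B L).ncard : ℝ) := by
  have h1 := Set.ncard_le_ncard (box_sub A B L) hfin
  rw [box_ncard hA hB hL] at h1
  exact_mod_cast h1

lemma upper {A B : ℝ} (hA : 0 < A) (hB : 0 < B) (hirr : Irrational (A / B))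
    (hfin : ∀ L, (nms A B L).Finite)
    (ho : ∀ η : ℝ, 0 < η → ∀ᶠ L in atTop, ((nms A B L).ncard : ℝ) ≤ η * L)
    {ε η : ℝ} (hε : 0 < ε) (hη : 0 < η) : ∀ᶠ L in atTop, (prs A B L).Finite ∧
      ((prs A B L).ncard : ℝ) ≤
        ((⌊(L + ε) / A⌋₊ : ℝ) + 1) * ((⌊(L + ε) / B⌋₊ : ℝ) + 1) + η * L := by
  obtain ⟨C, hC⟩ : ∃ C, C = (1 - exp (-ε))⁻¹ := ⟨_, rfl⟩
  have hC0 : 0 < C := by
    rw [hC]
    have : exp (-ε) < 1 := by rw [Real.exp_lt_one_iff]; linarith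
    exact inv_pos.2 (by linarith)
  obtain ⟨G, hG⟩ := exists_nat_gt (8 / (A * η))
  have hG0 : (0 : ℝ) < G := lt_trans (by positivity) hG
  obtain ⟨δG, hδ0, hδ⟩ := sep hB hirr G
  obtain ⟨δ, hδdef⟩ : ∃ δ, δ = min δG B / 3 := ⟨_, rfl⟩
  have hmin : 0 < min δG B := lt_min hδ0 hB
  have hδpos : 0 < δ := by rw [hδdef]; positivity
  have h2δ : 2 * δ < min δG B := by rw [hδdef]; linarith
  obtain ⟨S, hS⟩ : ∃ S, C * exp (-S) = δ := ⟨-Real.log (δ / C), by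
    rw [neg_neg, Real.exp_log (by positivity)]
    field_simp⟩
  obtain ⟨K, hK⟩ := near_card hA hB C S
  obtain ⟨L₀, hL₀⟩ := far hA hB hirr (hfin 0)
  filter_upwards [eventually_ge_atTop L₀, eventually_ge_atTop (1 : ℝ),
    eventually_ge_atTop (((K : ℝ) + 1) * 4 / η), ho (η / 4) (by positivity)] with L l1 l2 l3 l4
  have hcov : prs A B L ⊆ box A B (L + ε) ∪
      ({p : ℕ × ℕ | |p.1 * A - p.2 * B| ≤ C ∧ L - C ≤ p.1 * A ∧ p.1 * A ≤ L + S} ∪
      ({p : ℕ × ℕ | |p.1 * A - p.2 * B| ≤ δ ∧ p.1 * A ≤ 2 * L} ∪ nms A B L)) := by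
    rintro ⟨n, m⟩ hp
    have hp' : |exp ((n : ℝ) * A) - exp ((m : ℝ) * B)| ≤ exp L := hp
    by_cases c1 : (n : ℝ) * A ≤ L + ε ∧ (m : ℝ) * B ≤ L + ε
    · exact Or.inl c1
    right
    have hm : L + ε < (n : ℝ) * A ∨ L + ε < (m : ℝ) * B := by
      by_contra hcon
      push Not at hcon
      exact c1 hcon
    obtain ⟨g1, g2⟩ := close hε hp' hm
    rw [← hC] at g1 g2
    by_cases c2 : 2 * L < (n : ℝ) * A
    · right
      right
      exact hL₀ L l1 ⟨c2, hp'⟩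
    push Not at c2
    by_cases c3 : (n : ℝ) * A ≤ L + S
    · left
      refine ⟨g2, ?_, c3⟩
      show L - C ≤ (n : ℝ) * A
      have := abs_le.1 g2
      rcases hm with hm | hm
      · linarith
      · linarith [this.1]
    · right
      left
      refine ⟨?_, c2⟩
      show |(n : ℝ) * A - m * B| ≤ δ
      refine g1.trans ?_
      rw [← hS]
      refine mul_le_mul_of_nonneg_left (Real.exp_le_exp.2 ?_) hC0.le
      push Not at c3
      linarith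
  obtain ⟨f1, f2⟩ := hK L
  obtain ⟨f3, f4⟩ := mid_card (A := A) (B := B) (δ := δ) (L := L) (G := G) hA hB
    (by exact_mod_cast hG0) (by linarith)
    (fun i hi1 hi2 k => (h2δ.trans_le (min_le_left _ _)).trans_le (hδ i hi1 hi2 k))
    (h2δ.trans_le (min_le_right _ _))
  have hLε : 0 ≤ L + ε := by linarith
  have f0 := box_finite hA hB hLε
  have hunion : (box A B (L + ε) ∪
      ({p : ℕ × ℕ | |p.1 * A - p.2 * B| ≤ C ∧ L - C ≤ p.1 * A ∧ p.1 * A ≤ L + S} ∪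
      ({p : ℕ × ℕ | |p.1 * A - p.2 * B| ≤ δ ∧ p.1 * A ≤ 2 * L} ∪ nms A B L))).Finite :=
    f0.union (f1.union (f3.union (hfin L)))
  refine ⟨hunion.subset hcov, ?_⟩
  have n1 := Set.ncard_le_ncard hcov hunion
  have n2 := n1.trans (Set.ncard_union_le _ _)
  have n3 := Set.ncard_union_le
    {p : ℕ × ℕ | |p.1 * A - p.2 * B| ≤ C ∧ L - C ≤ p.1 * A ∧ p.1 * A ≤ L + S}
    ({p : ℕ × ℕ | |p.1 * A - p.2 * B| ≤ δ ∧ p.1 * A ≤ 2 * L} ∪ nms A B L)
  have n4 := Set.ncard_union_le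
    {p : ℕ × ℕ | |p.1 * A - p.2 * B| ≤ δ ∧ p.1 * A ≤ 2 * L} (nms A B L)
  have n5 : (prs A B L).ncard ≤ (⌊(L + ε) / A⌋₊ + 1) * (⌊(L + ε) / B⌋₊ + 1) + (K +
      (({p : ℕ × ℕ | |p.1 * A - p.2 * B| ≤ δ ∧ p.1 * A ≤ 2 * L}).ncard + (nms A B L).ncard)) := by
    rw [box_ncard hA hB hLε] at n2
    omega
  have n6 : ((prs A B L).ncard : ℝ) ≤ ((⌊(L + ε) / A⌋₊ : ℝ) + 1) * ((⌊(L + ε) / B⌋₊ : ℝ) + 1) +
      ((K : ℝ) + ((({p : ℕ × ℕ | |p.1 * A - p.2 * B| ≤ δ ∧ p.1 * A ≤ 2 * L}).ncard : ℝ) +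
        ((nms A B L).ncard : ℝ))) := by exact_mod_cast n5
  have n7 : (K : ℝ) + 1 ≤ η / 4 * L := by
    rw [div_le_iff₀ hη] at l3
    linarith
  have n8 : 2 * L / (A * G) ≤ η / 4 * L := by
    rw [div_le_iff₀ (by positivity)]
    rw [div_lt_iff₀ (by positivity)] at hG
    have e1 : 8 * L ≤ (G : ℝ) * (A * η) * L := mul_le_mul_of_nonneg_right hG.le (by linarith)
    linarith
  have n9 : 0 ≤ η * L := by positivity
  linarith

end Pool.Agent.H32x.ST
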